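import Mathlib

namespace Pool.Agent.H.MP_f7662b_lc

open FirstOrder FirstOrder.Language FirstOrder.Ring MvPolynomial

section
variable {k A ι γ : Type} [CommRing k] [CommRing A] [Algebra k A] [CompatibleRing A]

def Tm (k : Type) [CommRing k] [Algebra k A] (t : (ι → A) → A) : Prop :=
  ∃ τ : Language.ring.Term (ι ⊕ k), ∀ v, τ.realize (Sum.elim v (algebraMap k A)) = t v

def Df (k : Type) [CommRing k] [Algebra k A] (P : (ι → A) → Prop) : Prop :=
  ∃ φ : Language.ring.Formula (ι ⊕ k), ∀ v, φ.Realize (Sum.elim v (algebraMap k A)) ↔ P v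

theorem Tm.var (i : ι) : Tm k fun v : ι → A => v i := ⟨.var (.inl i), fun _ => rfl⟩

theorem Tm.con (c : k) : Tm k fun _ : ι → A => algebraMap k A c := ⟨.var (.inr c), fun _ => rfl⟩

theorem Tm.zero : Tm k fun _ : ι → A => 0 := ⟨0, by simp⟩

theorem Tm.one : Tm k fun _ : ι → A => 1 := ⟨1, by simp⟩

theorem Tm.add {s t : (ι → A) → A} : Tm k s → Tm k t → Tm k fun v => s v + t v :=
  fun ⟨a, h⟩ ⟨b, h'⟩ => ⟨a + b, by simp [h, h']⟩

theorem Tm.mul {s t : (ι → A) → A} : Tm k s → Tm k t → Tm k fun v => s v * t v :=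
  fun ⟨a, h⟩ ⟨b, h'⟩ => ⟨a * b, by simp [h, h']⟩

theorem Tm.aeval (e : γ → ι) (p : MvPolynomial γ k) : Tm k fun v : ι → A => aeval (v ∘ e) p := by
  induction p using MvPolynomial.induction_on with
  | C c => simpa using Tm.con c
  | add p q a b => simpa using a.add b
  | mul_X p i a => simpa using a.mul (.var (e i))

theorem Df.eq {s t : (ι → A) → A} : Tm k s → Tm k t → Df k fun v => s v = t v :=
  fun ⟨a, h⟩ ⟨b, h'⟩ => ⟨a.equal b, by simp [h, h']⟩

theorem Df.not {P : (ι → A) → Prop} : Df k P → Df k fun v => ¬P v :=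
  fun ⟨a, h⟩ => ⟨a.not, by simp [h]⟩

theorem Df.and {P Q : (ι → A) → Prop} : Df k P → Df k Q → Df k fun v => P v ∧ Q v :=
  fun ⟨a, h⟩ ⟨b, h'⟩ => ⟨a ⊓ b, by simp [h, h']⟩

theorem Df.or {P Q : (ι → A) → Prop} : Df k P → Df k Q → Df k fun v => P v ∨ Q v :=
  fun ⟨a, h⟩ ⟨b, h'⟩ => ⟨a ⊔ b, by simp [h, h']⟩

theorem Df.imp {P Q : (ι → A) → Prop} : Df k P → Df k Q → Df k fun v => P v → Q v :=
  fun ⟨a, h⟩ ⟨b, h'⟩ => ⟨a.imp b, by simp [h, h']⟩

theorem Df.fex [Finite γ] {P : γ → (ι → A) → Prop} (h : ∀ j, Df k (P j)) :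
    Df k fun v => ∃ j, P j v := by
  choose φ h using h
  exact ⟨Formula.iSup φ, by simp [h]⟩

theorem Df.fall [Finite γ] {P : γ → (ι → A) → Prop} (h : ∀ j, Df k (P j)) :
    Df k fun v => ∀ j, P j v := by
  simpa using (Df.fex fun j => (h j).not).not

theorem Df.comp {P : (γ → A) → Prop} (e : γ → ι) : Df k P → Df k fun v : ι → A => P (v ∘ e) :=
  fun ⟨a, h⟩ => ⟨a.relabel (Sum.map e id), fun v => by
    rw [Formula.realize_relabel, Sum.elim_comp_map]
    exact h _⟩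

theorem Df.exs [Finite γ] {P : (γ → A) → (ι → A) → Prop} :
    (Df k fun v : ι ⊕ γ → A => P (v ∘ .inr) (v ∘ .inl)) → Df k fun v => ∃ z, P z v :=
  fun ⟨a, h⟩ => ⟨Formula.iExs γ (a.relabel (Sum.elim (Sum.map .inl id) (.inl ∘ .inr))), fun v => by
    rw [Formula.realize_iExs]
    refine exists_congr fun z => ?_
    rw [Formula.realize_relabel]
    refine .trans (iff_of_eq (congrArg _ ?_)) (h (Sum.elim v z))
    ext ((i | i) | i) <;> rfl⟩

theorem Df.ex {P : A → (ι → A) → Prop}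
    (h : Df k fun v : ι ⊕ Unit → A => P (v (.inr ())) (v ∘ .inl)) : Df k fun v => ∃ z, P z v := by
  convert Df.exs (P := fun z v => P (z ()) v) h
  exact ⟨fun ⟨z, h⟩ => ⟨fun _ => z, h⟩, fun ⟨z, h⟩ => ⟨z (), h⟩⟩

theorem Df.all {P : A → (ι → A) → Prop}
    (h : Df k fun v : ι ⊕ Unit → A => P (v (.inr ())) (v ∘ .inl)) : Df k fun v => ∀ z, P z v := by
  simpa using (Df.ex (P := fun z v => ¬P z v) h.not).not

theorem Df.iff {m : ℕ} {a b : Fin m → A} (h : ∀ (r : ℕ) (c : Fin r → k)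
    (φ : Language.ring.Formula (Fin m ⊕ Fin r)), φ.Realize (Sum.elim a fun i => algebraMap k A (c i)) ↔
      φ.Realize (Sum.elim b fun i => algebraMap k A (c i))) {P : (Fin m → A) → Prop}
    (hP : Df k P) : P a ↔ P b := by
  classical
  obtain ⟨φ, hP⟩ := hP
  obtain ⟨r, ⟨e⟩⟩ := Finite.exists_equiv_fin φ.freeVarFinset
  have k : ∀ v : Fin m → A, Formula.Realize (φ.restrictFreeVar fun i : φ.freeVarFinset =>
      (i.1.map id fun _ => e i : Fin m ⊕ Fin r)) (Sum.elim v fun i => algebraMap k A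
        ((e.symm i).1.elim 0 id)) ↔ P v := fun v =>
    (BoundedFormula.realize_restrictFreeVar _ (by rintro ⟨i | i, h⟩ <;> simp)).trans (hP v)
  rw [← k, ← k, h]

def Un (a : A) : Prop := ∃ b, 1 = a * b

def Dl (x v g u h : A) : Prop := (∃ z, v = u * z) ∧
  (∀ a b, u + x + x * x * h = a * b → Un a ∨ Un b) ∧ ¬Un (u + x + x * x * h) ∧
    ∃ z, g = (u + x + x * x * h) * z

def Lt (a b : A) : Prop := ¬a = 0 ∧ ∃ z, ¬Un z ∧ b = a * z

def Th (j : γ) (y : γ → A) : Prop := ∀ f, ∃ v g u, Dl (y j) v g u f ∧ ∀ u h, Dl (y j) v g u h →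
  h = 0 ∨ Un h ∨ ∃ u1 h1 u2 h2, Dl (y j) v g u1 h1 ∧ Dl (y j) v g u2 h2 ∧ Lt u1 u ∧ Lt u2 u ∧
    (h = h1 + h2 ∨ ∃ i : γ, h = h1 * y i)

theorem df_Th [Finite γ] (j : γ) : Df k (Th (A := A) j) := by
  unfold Th Dl Lt Un
  repeat' first
    | exact Tm.var _ | exact Tm.zero | exact Tm.one | apply Tm.add | apply Tm.mul | apply Df.eq
    | apply Df.not | apply Df.and | apply Df.or | apply Df.ex | apply Df.all | apply Df.imp
    | refine Df.fex fun _ => ?_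

def Th1 (j : γ) (y : γ → A) : Prop := ¬Un (y j) ∧ ∀ f, ∃ c z, (c = 0 ∨ Un c) ∧ f = c + y j * z

theorem df_Th1 (j : γ) : Df k (Th1 (A := A) j) := by
  unfold Th1 Un
  repeat' first
    | exact Tm.var _ | exact Tm.zero | exact Tm.one | apply Tm.add | apply Tm.mul | apply Df.eq
    | apply Df.not | apply Df.and | apply Df.or | apply Df.ex | apply Df.all

end

theorem un_iff {A : Type} [CommRing A] {a : A} : Un a ↔ IsUnit a := isUnit_iff_dvd_one.symm

theorem hopf {A : Type} [CommRing A] [IsNoetherianRing A] (φ : A →+* A)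
    (h : Function.Surjective φ) : Function.Injective φ := by
  obtain ⟨n, hn⟩ := monotone_stabilizes_iff_noetherian.2 ‹IsNoetherianRing A›
    ⟨fun n => RingHom.ker (φ ^ n), monotone_nat_of_le_succ fun n x hx => by
      simp_all [RingHom.mem_ker, pow_succ']⟩
  refine (injective_iff_map_eq_zero _).2 fun x hx => ?_
  obtain ⟨z, rfl⟩ := h.iterate n x
  have : z ∈ RingHom.ker (φ ^ (n + 1)) := by simpa [RingHom.mem_ker, pow_succ'] using hx
  simpa [RingHom.mem_ker] using (hn _ n.le_succ).ge this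

variable {k γ : Type} [Field k]

theorem con_mem {h : MvPolynomial γ k} (e : h = 0 ∨ Un h) :
    ∃ c, h = C c := by
  rcases e with rfl | e
  · exact ⟨0, by simp⟩
  · exact (isUnit_iff_eq_C_of_isReduced.1 (un_iff.1 e)).imp fun _ => And.right

theorem Th.gen [Finite γ] {j : γ} {y : γ → MvPolynomial γ k} (h : Th j y) (f : MvPolynomial γ k) :
    f ∈ (aeval (R := k) y).range := by
  obtain ⟨v, g, u, h1, h2⟩ := h f
  induction u using (wellFounded_dvdNotUnit (α := MvPolynomial γ k)).induction generalizing f with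
  | h u ih =>
  rcases or_assoc.2 (h2 u f h1) with e | ⟨u1, f1, u2, f2, a1, a2, ⟨a3, z, a4⟩, ⟨a5, z', a6⟩, a7⟩
  · obtain ⟨c, rfl⟩ := con_mem e
    exact Subalgebra.algebraMap_mem _ c
  have b1 := ih u1 ⟨a3, z, mt un_iff.2 a4.1, a4.2⟩ f1 a1
  rcases a7 with rfl | ⟨i, rfl⟩
  · exact add_mem b1 (ih u2 ⟨a5, z', mt un_iff.2 a6.1, a6.2⟩ f2 a2)
  · exact mul_mem b1 ⟨X i, aeval_X _ _⟩

theorem Th1.gen {y : Fin 1 → MvPolynomial (Fin 1) k} (h : Th1 0 y) (f : MvPolynomial (Fin 1) k) :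
    f ∈ (aeval (R := k) y).range := by
  obtain ⟨c, z, h1, h2⟩ := h.2 (X 0)
  obtain ⟨c, rfl⟩ := con_mem h1
  have a0 : (y 0 * z).totalDegree = 1 := by
    rw [← sub_eq_iff_eq_add'.2 h2, sub_eq_add_neg, totalDegree_add_eq_left_of_totalDegree_lt] <;>
    simp
  have a1 : y 0 * z ≠ 0 := fun e => by simp [e] at a0
  rw [totalDegree_mul_of_isDomain (left_ne_zero_of_mul a1) (right_ne_zero_of_mul a1)] at a0
  have a2 : (y 0).totalDegree ≠ 0 := fun e => h.1 (un_iff.2 (by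
    rw [totalDegree_eq_zero_iff_eq_C] at e
    rw [e] at a1 ⊢
    exact (IsUnit.mk0 _ fun e => by simp [e] at a1).map C))
  have a3 : X 0 ∈ (aeval (R := k) y).range := by
    rw [h2, totalDegree_eq_zero_iff_eq_C.1 (by omega : z.totalDegree = 0)]
    exact add_mem (Subalgebra.algebraMap_mem _ _)
      (mul_mem ⟨X 0, aeval_X _ _⟩ (Subalgebra.algebraMap_mem _ _))
  induction f using MvPolynomial.induction_on with
  | C c => exact Subalgebra.algebraMap_mem _ c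
  | add p q a b => exact add_mem a b
  | mul_X p i a => exact mul_mem a (Subsingleton.elim 0 i ▸ a3)

theorem th1 : Th1 (0 : Fin 1) (X : Fin 1 → MvPolynomial (Fin 1) k) := by
  refine ⟨fun h => X_prime.not_isUnit (un_iff.1 h), fun f => ?_⟩
  suffices ∃ c z, f = C c + X 0 * z by
    obtain ⟨c, z, h⟩ := this
    refine ⟨_, z, ?_, h⟩
    rcases eq_or_ne c 0 with rfl | e
    exacts [Or.inl (by simp), Or.inr (un_iff.2 ((IsUnit.mk0 c e).map C))]
  induction f using MvPolynomial.induction_on with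
  | C c => exact ⟨c, 0, by simp⟩
  | add p q a b =>
    obtain ⟨c, z, rfl⟩ := a
    obtain ⟨c', z', rfl⟩ := b
    exact ⟨c + c', z + z', by rw [map_add]; ring⟩
  | mul_X p i a => exact ⟨0, p, by simp [Subsingleton.elim i 0, mul_comm]⟩

theorem irr {n : ℕ} (h : MvPolynomial (Fin (n + 2)) k) {N : ℕ} (hN : degreeOf 0 h < N) :
    Irreducible (X 0 ^ N + X 1 + X 1 * X 1 * h) := by
  rw [← MulEquiv.irreducible_iff (finSuccEquiv k (n + 1)), ← Fin.succ_zero_eq_one]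
  simp only [map_add, map_mul, map_pow, finSuccEquiv_X_zero, finSuccEquiv_X_succ]
  rw [← natDegree_finSuccEquiv] at hN
  generalize finSuccEquiv k (n + 1) h = H at hN
  have hx : Prime (X 0 : MvPolynomial (Fin (n + 1)) k) := X_prime
  generalize (X 0 : MvPolynomial (Fin (n + 1)) k) = x at hx
  have a1 : (Polynomial.C x + Polynomial.C x * Polynomial.C x * H).degree < N := by
    refine Polynomial.degree_le_natDegree.trans_lt (Nat.cast_lt.2 ?_)
    rw [← map_mul]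
    exact (Polynomial.natDegree_add_le_of_degree_le (by simp)
      (Polynomial.natDegree_C_mul_le _ _)).trans_lt hN
  have a2 := Polynomial.monic_X_pow_add a1
  have a3 := Polynomial.degree_add_eq_left_of_degree_lt (a1.trans_eq (Polynomial.degree_X_pow N).symm)
  rw [add_assoc]
  refine Polynomial.irreducible_of_eisenstein_criterion (P := Ideal.span {x})
    ((Ideal.span_singleton_prime hx.ne_zero).2 hx) ?_ (fun m hm => ?_) ?_ ?_ a2.isPrimitive
  · rw [a2.leadingCoeff, Ideal.mem_span_singleton]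
    exact hx.not_dvd_one
  · rw [a3, Polynomial.degree_X_pow, Nat.cast_lt] at hm
    rw [Ideal.mem_span_singleton, ← mul_one (Polynomial.C x), mul_assoc, mul_assoc, ← mul_add,
      Polynomial.coeff_add, Polynomial.coeff_X_pow, if_neg hm.ne, zero_add, Polynomial.coeff_C_mul]
    exact dvd_mul_right _ _
  · rw [a3, Polynomial.degree_X_pow]
    exact_mod_cast (Nat.zero_le _).trans_lt hN
  · rw [Ideal.span_singleton_pow, Ideal.mem_span_singleton]
    simp only [Polynomial.coeff_add, Polynomial.coeff_X_pow, Polynomial.mul_coeff_zero,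
      Polynomial.coeff_C_zero, if_neg (by omega : ¬0 = N), zero_add]
    rw [dvd_add_left ⟨_, by rw [sq]⟩, sq]
    exact fun h => hx.not_dvd_one ((mul_dvd_mul_iff_left hx.ne_zero).1 (by rwa [mul_one]))

theorem fin_cl (f : MvPolynomial γ k) : ∃ S : Set (ℕ × MvPolynomial γ k), S.Finite ∧
    (∃ i, (i, f) ∈ S) ∧ ∀ p ∈ S, (∃ c, p.2 = C c) ∨ ∃ p1 ∈ S, ∃ p2 ∈ S, p1.1 < p.1 ∧ p2.1 < p.1 ∧
      (p.2 = p1.2 + p2.2 ∨ ∃ i, p.2 = p1.2 * X i) := by
  induction f using MvPolynomial.induction_on with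
  | C c => exact ⟨{(0, C c)}, by simp, ⟨0, rfl⟩, by simp⟩
  | add p q a b =>
    obtain ⟨S, a1, ⟨i, a2⟩, a3⟩ := a
    obtain ⟨T, b1, ⟨j, b2⟩, b3⟩ := b
    refine ⟨insert (i + j + 1, p + q) (S ∪ T), (a1.union b1).insert _, ⟨_, Or.inl rfl⟩, ?_⟩
    rintro r (rfl | h | h)
    · exact Or.inr ⟨_, Or.inr (Or.inl a2), _, Or.inr (Or.inr b2), by simp only; omega,
        by simp only; omega, Or.inl rfl⟩
    · exact (a3 r h).imp_right fun ⟨a, b, c, d, e⟩ => ⟨a, Or.inr (Or.inl b), c, Or.inr (Or.inl d), e⟩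
    · exact (b3 r h).imp_right fun ⟨a, b, c, d, e⟩ => ⟨a, Or.inr (Or.inr b), c, Or.inr (Or.inr d), e⟩
  | mul_X p j a =>
    obtain ⟨S, a1, ⟨i, a2⟩, a3⟩ := a
    refine ⟨insert (i + 1, p * X j) S, a1.insert _, ⟨_, Or.inl rfl⟩, ?_⟩
    rintro r (rfl | h)
    · exact Or.inr ⟨_, Or.inr a2, _, Or.inr a2, by simp, by simp, Or.inr ⟨j, rfl⟩⟩
    · exact (a3 r h).imp_right fun ⟨a, b, c, d, e⟩ => ⟨a, Or.inr b, c, Or.inr d, e⟩

theorem th {n : ℕ} : Th (1 : Fin (n + 2)) (X : Fin (n + 2) → MvPolynomial (Fin (n + 2)) k) := by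
  intro f
  obtain ⟨S, a1, ⟨i, a2⟩, a3⟩ := fin_cl f
  obtain ⟨M, hM⟩ := (a1.image fun p => degreeOf 0 p.2).bddAbove
  obtain ⟨L, hL⟩ := (a1.image Prod.fst).bddAbove
  obtain ⟨d, hd⟩ : ∃ d : ℕ × MvPolynomial (Fin (n + 2)) k → MvPolynomial (Fin (n + 2)) k,
    ∀ p, d p = X 0 ^ (M + 1 + p.1) + X 1 + X 1 * X 1 * p.2 := ⟨_, fun _ => rfl⟩
  have b0 : ∀ p ∈ S, Irreducible (d p) := fun p hp => hd p ▸ irr _
    ((Nat.lt_succ_of_le (hM ⟨p, hp, rfl⟩)).trans_le (Nat.le_add_right _ _))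
  have b1 : ∀ p ∈ S, Dl (X 1) (X 0 ^ (M + 1 + L)) (∏ p ∈ a1.toFinset, d p) (X 0 ^ (M + 1 + p.1))
      p.2 := fun p hp => ⟨pow_dvd_pow _ (Nat.add_le_add_left (hL ⟨p, hp, rfl⟩) _),
    fun a b e => by simpa only [un_iff] using (b0 p hp).isUnit_or_isUnit ((hd p).trans e),
    mt un_iff.1 (hd p ▸ (b0 p hp).not_isUnit),
    hd p ▸ Finset.dvd_prod_of_mem d (a1.mem_toFinset.2 hp)⟩
  refine ⟨X 0 ^ (M + 1 + L), ∏ p ∈ a1.toFinset, d p, X 0 ^ (M + 1 + i), b1 (i, f) a2,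
    fun u h hh => ?_⟩
  obtain ⟨c1, c2, c3, c4⟩ := hh
  have c5 : Irreducible (u + X 1 + X 1 * X 1 * h) :=
    ⟨mt un_iff.2 c3, fun a b e => by simpa only [un_iff] using c2 a b e⟩
  obtain ⟨p, hp, e⟩ := c5.prime.exists_mem_finset_dvd c4
  rw [a1.mem_toFinset] at hp
  obtain ⟨s, e⟩ := (c5.associated_of_dvd (b0 p hp) e).symm
  obtain ⟨s, -, hs⟩ := isUnit_iff_eq_C_of_isReduced.1 s.isUnit
  obtain ⟨m, -, t, e'⟩ := (dvd_prime_pow X_prime _).1 c1
  obtain ⟨t, -, ht⟩ := isUnit_iff_eq_C_of_isReduced.1 t⁻¹.isUnit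
  rw [← Units.eq_mul_inv_iff_mul_eq, ht] at e'
  set ε := aeval (R := k) (Function.update (X : Fin (n + 2) → MvPolynomial (Fin (n + 2)) k) 1 0)
  have d1 : X 0 ^ (M + 1 + p.1) * C s = u := by simpa [ε, hd, e', hs] using congrArg ε e
  have d2 : (1 + X 1 * p.2) * C s = 1 + X 1 * h :=
    mul_left_cancel₀ (X_ne_zero 1) (by rw [hd, hs] at e; linear_combination e - d1)
  have d3 : (C s : MvPolynomial (Fin (n + 2)) k) = 1 := by simpa [ε] using congrArg ε d2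
  rw [d3, mul_one] at d1 d2
  obtain rfl := mul_left_cancel₀ (X_ne_zero 1) (add_left_cancel d2)
  subst d1
  have l : ∀ {i j : ℕ}, i < j → Lt (X 0 ^ (M + 1 + i) : MvPolynomial (Fin (n + 2)) k)
      (X 0 ^ (M + 1 + j)) := fun {i j} h => ⟨pow_ne_zero _ (X_ne_zero _), X 0 ^ (j - i), fun e =>
    X_prime.not_isUnit ((isUnit_pow_iff (by omega)).1 (un_iff.1 e)), by
      rw [← pow_add]
      congr 1
      omega⟩
  rcases a3 p hp with ⟨c, e⟩ | ⟨p1, e1, p2, e2, e3, e4, e5⟩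
  · rcases eq_or_ne c 0 with rfl | e'
    exacts [Or.inl (by simp [e]), Or.inr (Or.inl (un_iff.2 (e ▸ (IsUnit.mk0 c e').map C)))]
  · exact Or.inr (Or.inr ⟨_, _, _, _, b1 _ e1, b1 _ e2, l e3, l e4, e5⟩)

theorem gen (n : ℕ) [CompatibleRing (MvPolynomial (Fin n) k)] :
    ∃ θ : (Fin n → MvPolynomial (Fin n) k) → Prop, Df k θ ∧ θ X ∧
      ∀ y, θ y → ∀ f, f ∈ (aeval (R := k) y).range := by
  rcases n with _ | _ | n
  · exact ⟨fun _ => 0 = 0, .eq .zero .zero, rfl, fun y _ f =>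
      eq_C_of_isEmpty f ▸ Subalgebra.algebraMap_mem _ _⟩
  · exact ⟨_, df_Th1 0, th1, fun _ => Th1.gen⟩
  · exact ⟨_, df_Th 1, th, fun _ => Th.gen⟩

theorem main {n m : ℕ} [CompatibleRing (MvPolynomial (Fin n) k)]
    {a b : Fin m → MvPolynomial (Fin n) k} (h : ∀ P, Df k P → P a → P b) :
    ∃ σ : MvPolynomial (Fin n) k ≃ₐ[k] MvPolynomial (Fin n) k, ∀ i, σ (a i) = b i := by
  obtain ⟨θ, h1, h2, h3⟩ := gen (k := k) n
  obtain ⟨y, a1, a2⟩ := h (fun v => ∃ y, θ y ∧ ∀ i, aeval y (a i) = v i)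
    (.exs ((h1.comp _).and (.fall fun i => .eq (.aeval _ _) (.var _)))) ⟨X, h2, by simp⟩
  exact ⟨.ofBijective (aeval y) ⟨hopf (aeval y).toRingHom (h3 y a1), h3 y a1⟩, a2⟩

end Pool.Agent.H.MP_f7662b_lc
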